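import Mathlib
import Pool.Agent.Q292.RayPerc.Defs
import Pool.Agent.Q292.RayPerc.Rec
import Pool.Agent.Q292.RayPerc.Law

/-!
# Poisson random rays on `ℤ²`: infinite second moment does not force `λ_c = 0`
-/

namespace Pool.Agent.Results.MP_04d7a1_pr.LatticeDisproof

open MeasureTheory Filter Topology Q292.RayPerc
open scoped ENNReal

/-- The second moment `E_ν |H|² = E (L + 1)²`, where `L` has law `ν`. -/
noncomputable def secondMoment (ν : PMF ℕ) : ℝ≥0∞ := ∫⁻ l, ((l : ℝ≥0∞) + 1) ^ 2 ∂ν.toMeasure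

/-- The first moment `E_ν |H| = E (L + 1)`. -/
noncomputable def firstMoment (ν : PMF ℕ) : ℝ≥0∞ := ∫⁻ l, ((l : ℝ≥0∞) + 1) ∂ν.toMeasure

/-- If `n² P(L ≥ n) → 0` then `λ_c(ν) > 0`; and there is a law of `L` with `E|H| < ∞`,
`E|H|² = ∞` and `λ_c(ν) > 0`. -/
theorem result :
    (∀ ν : PMF ℕ, Tendsto (fun n : ℕ => (n : ℝ≥0∞) ^ 2 * ν.toMeasure {l | n ≤ l}) atTop (𝓝 0) →
      0 < lamc ν) ∧
    ∃ ν : PMF ℕ, firstMoment ν < ∞ ∧ secondMoment ν = ∞ ∧ 0 < lamc ν :=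
  ⟨fun ν h => lamc_pos ν (tendsto_of_tail ν h),
    dyadic, lt_top_iff_ne_top.2 dyadic_first, dyadic_second, lamc_pos dyadic dyadic_tendsto⟩

end Pool.Agent.Results.MP_04d7a1_pr.LatticeDisproof
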